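import Mathlib

/-!
Approximate uniform covering of a ring without common orientation in the semi-synchronous model.
-/

set_option autoImplicit false

namespace Pool.Agent.Results.MP_5c423c_lc.RingCovering

open Finset

/-! ### The model -/

/-- The clockwise distance from `a` to `b` on the ring of length `L` (points of the ring are real
numbers modulo `L`; clockwise is the positive direction). -/
noncomputable def cw (L a b : ℝ) : ℝ := L * Int.fract ((b - a) / L)

/-- The snapshot of sensor `i` in its local coordinates: all `y` with `|y| ≤ V` such that another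
sensor is at (signed) distance `y` along the ring. The local positive direction is clockwise if
`σ i = 1` and counterclockwise if `σ i = -1`. -/
def snapshot {n : ℕ} (L V : ℝ) (σ : Fin n → ℝ) (x : Fin n → ℝ) (i : Fin n) : Set ℝ :=
  {y | |y| ≤ V ∧ ∃ j, j ≠ i ∧ ∃ k : ℤ, σ i * y = x j - x i + k * L}

/-- `x t i` is the position of sensor `i` (modulo `L`) at time `t` in a semi-synchronous execution
of the algorithm `f`: at time `t` the sensors in `act t` look and move by the local displacement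
`f` prescribes, or are stopped after at least the distance `δ`; every sensor is activated
infinitely often. -/
structure IsExec {n : ℕ} (f : Set ℝ → ℝ) (L V δ : ℝ) (σ : Fin n → ℝ) (act : ℕ → Set (Fin n))
    (x : ℕ → Fin n → ℝ) : Prop where
  fair : ∀ i T, ∃ t, T ≤ t ∧ i ∈ act t
  idle : ∀ t i, i ∉ act t → x (t + 1) i = x t i
  move : ∀ t i, i ∈ act t → ∃ s : ℝ, 0 ≤ s ∧ s ≤ 1 ∧
    x (t + 1) i = x t i + s * (σ i * f (snapshot L V σ (x t) i)) ∧
    (s = 1 ∨ δ ≤ |s * f (snapshot L V σ (x t) i)|)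

/-! ### The convergence of capped averaging of gaps -/

/-- capped gap -/
noncomputable def h (V a : ℝ) : ℝ := min a V

/-- potential -/
noncomputable def φ (V a : ℝ) : ℝ := if a ≤ V then a ^ 2 / 2 else V * a - V ^ 2 / 2

theorem phi_le (V a b : ℝ) : φ V b ≤ φ V a + h V a * (b - a) + (b - a) ^ 2 / 2 := by
  unfold φ h
  split_ifs with h1 h2 h2
  · rw [min_eq_left h2]; nlinarith
  · push Not at h2
    rw [min_eq_right h2.le]; nlinarith [sq_nonneg (a - V), sq_nonneg (b - V)]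
  · push Not at h1
    rw [min_eq_left h2]; nlinarith [sq_nonneg (b - V)]
  · push Not at h1 h2
    rw [min_eq_right h2.le]; nlinarith [sq_nonneg (b - a)]

theorem phi_nonneg {V a : ℝ} (hV : 0 ≤ V) (ha : 0 ≤ a) : 0 ≤ φ V a := by
  unfold φ
  split_ifs with h1
  · positivity
  · push Not at h1
    nlinarith

theorem h_sub_le {V a c b : ℝ} (h1 : b ≤ a) (h2 : b ≤ c) : h V a - h V c ≤ a - b := by
  unfold h
  rcases le_total a V with h3 | h3 <;> rcases le_total c V with h4 | h4 <;>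
    simp only [min_eq_left, min_eq_right, h3, h4] <;> linarith

theorem h_sub_le' {V a c b : ℝ} (h1 : a ≤ b) (h2 : c ≤ b) : h V c - h V a ≤ b - a := by
  unfold h
  rcases le_total a V with h3 | h3 <;> rcases le_total c V with h4 | h4 <;>
    simp only [min_eq_left, min_eq_right, h3, h4] <;> linarith

/-- displacement of the sensor between the gaps `c` (behind) and `a` (ahead) -/
noncomputable def mv (V s a c : ℝ) : ℝ := s * ((h V a - h V c) / 4)

theorem mv_le {V s a c b : ℝ} (hs0 : 0 ≤ s) (hs1 : s ≤ 1) (h1 : b ≤ a) (h2 : b ≤ c) :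
    mv V s a c ≤ (a - b) / 4 := by
  unfold mv
  have h3 := h_sub_le (V := V) h1 h2
  have h4 : 0 ≤ a - b := by linarith
  calc s * ((h V a - h V c) / 4) ≤ s * ((a - b) / 4) :=
        mul_le_mul_of_nonneg_left (by linarith) hs0
    _ ≤ 1 * ((a - b) / 4) := mul_le_mul_of_nonneg_right hs1 (by linarith)
    _ = (a - b) / 4 := one_mul _

theorem neg_mv (V s a c : ℝ) : -mv V s a c = mv V s c a := by
  unfold mv
  ring

theorem mv_le' {V s a c b : ℝ} (hs0 : 0 ≤ s) (hs1 : s ≤ 1) (h1 : a ≤ b) (h2 : c ≤ b) :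
    mv V s c a ≤ (b - a) / 4 := by
  unfold mv
  have h3 := h_sub_le' (V := V) h1 h2
  have h4 : 0 ≤ b - a := by linarith
  calc s * ((h V c - h V a) / 4) ≤ s * ((b - a) / 4) :=
        mul_le_mul_of_nonneg_left (by linarith) hs0
    _ ≤ 1 * ((b - a) / 4) := mul_le_mul_of_nonneg_right hs1 (by linarith)
    _ = (b - a) / 4 := one_mul _

/-- The dynamics of the gaps: sensor `i` lies between the gaps `i - 1` and `i`. -/
structure Gaps {n : ℕ} [NeZero n] (V δ : ℝ) (G : ℕ → Fin n → ℝ) (s : ℕ → Fin n → ℝ)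
    (act : ℕ → Fin n → Prop) : Prop where
  s0 : ∀ t i, 0 ≤ s t i
  s1 : ∀ t i, s t i ≤ 1
  stop : ∀ t i, act t i → s t i = 1 ∨ δ ≤ |mv V (s t i) (G t i) (G t (i - 1))|
  idle : ∀ t i, ¬ act t i → s t i = 0
  inf : ∀ i T, ∃ t, T ≤ t ∧ act t i
  step : ∀ t i, G (t + 1) i = G t i - mv V (s t i) (G t i) (G t (i - 1)) +
    mv V (s t (i + 1)) (G t (i + 1)) (G t i)

section

variable {n : ℕ} [NeZero n] {V δ : ℝ} {G : ℕ → Fin n → ℝ} {s : ℕ → Fin n → ℝ}
  {act : ℕ → Fin n → Prop}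

theorem lower_step {g s : Fin n → ℝ} {b : ℝ} (h0 : ∀ i, 0 ≤ s i) (h1 : ∀ i, s i ≤ 1)
    (hb : ∀ i, b ≤ g i) (i : Fin n) :
    b ≤ g i - mv V (s i) (g i) (g (i - 1)) + mv V (s (i + 1)) (g (i + 1)) (g i) := by
  have h1' := mv_le (V := V) (h0 i) (h1 i) (hb i) (hb (i - 1))
  have h2 := mv_le (V := V) (h0 (i + 1)) (h1 (i + 1)) (hb i) (hb (i + 1))
  rw [← neg_mv] at h2
  have h3 := hb i
  linarith

theorem Gaps.lower (H : Gaps V δ G s act) {b : ℝ} {t : ℕ} (hb : ∀ i, b ≤ G t i) :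
    ∀ i, b ≤ G (t + 1) i := by
  intro i
  rw [H.step]
  exact lower_step (H.s0 t) (H.s1 t) hb i

theorem Gaps.lower' (H : Gaps V δ G s act) {b : ℝ} {t : ℕ} (hb : ∀ i, b ≤ G t i) {u : ℕ}
    (hu : t ≤ u) : ∀ i, b ≤ G u i := by
  induction u, hu using Nat.le_induction with
  | base => exact hb
  | succ u _ ih => exact H.lower ih

theorem Gaps.sum_step (H : Gaps V δ G s act) (t : ℕ) : ∑ i, G (t + 1) i = ∑ i, G t i := by
  simp only [H.step, sum_add_distrib, sum_sub_distrib]
  have h1 : ∑ i : Fin n, mv V (s t (i + 1)) (G t (i + 1)) (G t i) =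
      ∑ i : Fin n, mv V (s t i) (G t i) (G t (i - 1)) := by
    have := Equiv.sum_comp (Equiv.addRight (1 : Fin n))
      (fun i => mv V (s t i) (G t i) (G t (i - 1)))
    simpa using this
  rw [h1]
  ring

theorem Gaps.sum_eq (H : Gaps V δ G s act) (t : ℕ) : ∑ i, G t i = ∑ i, G 0 i := by
  induction t with
  | zero => rfl
  | succ t ih => rw [H.sum_step, ih]

theorem Gaps.phi_step (H : Gaps V δ G s act) (t : ℕ) :
    ∑ i, φ V (G (t + 1) i) ≤ ∑ i, φ V (G t i) -
      ∑ i, s t i * (h V (G t i) - h V (G t (i - 1))) ^ 2 / 8 := by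
  obtain ⟨M, hM⟩ : ∃ M : Fin n → ℝ, M = fun i => mv V (s t i) (G t i) (G t (i - 1)) := ⟨_, rfl⟩
  have hstep : ∀ i, G (t + 1) i - G t i = M (i + 1) - M i := by
    intro i
    rw [H.step, hM]
    simp only [add_sub_cancel_right]
    ring
  have h1 : ∀ i, φ V (G (t + 1) i) ≤ φ V (G t i) + h V (G t i) * (M (i + 1) - M i) +
      (M (i + 1) - M i) ^ 2 / 2 := by
    intro i
    rw [← hstep]
    exact phi_le V _ _
  have h2 : ∀ i, (M (i + 1) - M i) ^ 2 / 2 ≤ M (i + 1) ^ 2 + M i ^ 2 := by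
    intro i
    nlinarith [sq_nonneg (M (i + 1) + M i)]
  have h3 : ∑ i : Fin n, M (i + 1) ^ 2 = ∑ i : Fin n, M i ^ 2 :=
    Equiv.sum_comp (Equiv.addRight (1 : Fin n)) (fun i => M i ^ 2)
  have h4 : ∑ i : Fin n, h V (G t i) * M (i + 1) = ∑ i : Fin n, h V (G t (i - 1)) * M i := by
    have := Equiv.sum_comp (Equiv.addRight (1 : Fin n)) (fun i => h V (G t (i - 1)) * M i)
    simpa using this
  have h5 : ∑ i, φ V (G (t + 1) i) ≤ ∑ i, (φ V (G t i) + h V (G t i) * (M (i + 1) - M i) +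
      (M (i + 1) ^ 2 + M i ^ 2)) :=
    sum_le_sum fun i _ => (h1 i).trans (by linarith [h2 i])
  have h6 : ∑ i, (φ V (G t i) + h V (G t i) * (M (i + 1) - M i) + (M (i + 1) ^ 2 + M i ^ 2)) =
      ∑ i, φ V (G t i) + ∑ i, (-(h V (G t i) - h V (G t (i - 1))) * M i + 2 * M i ^ 2) := by
    simp only [sum_add_distrib, mul_sub, sum_sub_distrib, neg_sub, sub_mul, h3, h4]
    rw [← Finset.mul_sum]
    ring
  rw [h6] at h5
  have h7 : ∑ i, (-(h V (G t i) - h V (G t (i - 1))) * M i + 2 * M i ^ 2) ≤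
      -∑ i, s t i * (h V (G t i) - h V (G t (i - 1))) ^ 2 / 8 := by
    rw [← sum_neg_distrib]
    refine sum_le_sum fun i _ => ?_
    rw [hM]
    simp only [mv]
    have e1 := H.s0 t i
    have e2 := H.s1 t i
    have e3 : s t i * s t i ≤ s t i := mul_le_of_le_one_left e1 e2
    nlinarith [mul_le_mul_of_nonneg_right e3 (sq_nonneg (h V (G t i) - h V (G t (i - 1))))]
  linarith

theorem Gaps.phi_anti (H : Gaps V δ G s act) : Antitone fun t => ∑ i, φ V (G t i) := by
  refine antitone_nat_of_succ_le fun t => (H.phi_step t).trans ?_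
  have : 0 ≤ ∑ i, s t i * (h V (G t i) - h V (G t (i - 1))) ^ 2 / 8 :=
    sum_nonneg fun i _ => div_nonneg (mul_nonneg (H.s0 t i) (sq_nonneg _)) (by norm_num)
  linarith

/-- the invariants while no sensor at the boundary of `B` is active -/
theorem Gaps.invariant (H : Gaps V δ G s act) {B : Fin n → Prop} {p q : ℝ} {t0 t1 : ℕ}
    (h0 : t0 ≤ t1) (hE : ∀ t, t0 ≤ t → t < t1 → ∀ i, act t i → (B i ↔ B (i - 1)))
    (hp : ∀ i, B i → G t0 i ≤ p) (hq : ∀ i, ¬ B i → q ≤ G t0 i) :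
    (∀ i, B i → G t1 i ≤ p) ∧ (∀ i, ¬ B i → q ≤ G t1 i) := by
  induction t1, h0 using Nat.le_induction with
  | base => exact ⟨hp, hq⟩
  | succ t ht ih =>
    obtain ⟨ih1, ih2⟩ := ih fun u hu1 hu2 => hE u hu1 (by omega)
    have key := hE t ht (Nat.lt_succ_self t)
    have hz : ∀ i, ¬ act t i → ∀ a c, mv V (s t i) a c = 0 := by
      intro i hi a c
      unfold mv
      rw [H.idle t i hi, zero_mul]
    constructor
    · intro i hi
      rw [H.step]
      have e0 := ih1 i hi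
      have e1 : -mv V (s t i) (G t i) (G t (i - 1)) ≤ (p - G t i) / 4 := by
        by_cases ha : act t i
        · rw [neg_mv]
          exact mv_le' (H.s0 t i) (H.s1 t i) e0 (ih1 _ ((key i ha).1 hi))
        · rw [hz i ha]; linarith
      have e2 : mv V (s t (i + 1)) (G t (i + 1)) (G t i) ≤ (p - G t i) / 4 := by
        by_cases ha : act t (i + 1)
        · have := key (i + 1) ha
          rw [add_sub_cancel_right] at this
          exact mv_le' (H.s0 t _) (H.s1 t _) e0 (ih1 _ (this.2 hi))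
        · rw [hz _ ha]; linarith
      linarith
    · intro i hi
      rw [H.step]
      have e0 := ih2 i hi
      have e1 : mv V (s t i) (G t i) (G t (i - 1)) ≤ (G t i - q) / 4 := by
        by_cases ha : act t i
        · exact mv_le (H.s0 t i) (H.s1 t i) e0 (ih2 _ fun h => hi ((key i ha).2 h))
        · rw [hz i ha]; linarith
      have e2 : -mv V (s t (i + 1)) (G t (i + 1)) (G t i) ≤ (G t i - q) / 4 := by
        by_cases ha : act t (i + 1)
        · have := key (i + 1) ha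
          rw [add_sub_cancel_right] at this
          rw [neg_mv]
          exact mv_le (H.s0 t _) (H.s1 t _) e0 (ih2 _ fun h => hi (this.1 h))
        · rw [hz _ ha]; linarith
      linarith

open Fin.NatCast in
theorem cyclic {B : Fin n → Prop} (h1 : ∃ i, B i) (h2 : ∀ i, B i → B (i - 1)) : ∀ i, B i := by
  obtain ⟨i, hi⟩ := h1
  have h3 : ∀ k : ℕ, B (i - (k : Fin n)) := by
    intro k
    induction k with
    | zero => simpa using hi
    | succ k ih =>
      have := h2 _ ih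
      rw [sub_sub] at this
      simpa using this
  intro j
  have := h3 (i - j).val
  rwa [Fin.cast_val_eq_self, sub_sub_cancel] at this

theorem Gaps.limit (H : Gaps V δ G s act) (hV : 0 < V) (hδ : 0 < δ) (hpos : ∀ i, 0 ≤ G 0 i)
    {g : Fin n → ℝ} (hg : ∀ ρ : ℝ, 0 < ρ → ∀ T : ℕ, ∃ t, T ≤ t ∧ ∀ i, |G t i - g i| < ρ)
    {m : Fin n} (hm : ∀ i, g m ≤ g i) (hmV : g m < V) : ∀ i, g i = g m := by
  by_contra hcon
  have hE0 : ∃ i, g i = g m ∧ g (i - 1) ≠ g m := by
    by_contra h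
    push Not at h
    exact hcon (cyclic (B := fun i => g i = g m) ⟨m, rfl⟩ h)
  obtain ⟨c, hc0, hc⟩ : ∃ c : ℝ, 0 < c ∧ ∀ i, g i ≠ g m → g m + c ≤ h V (g i) := by
    have hne : (univ : Finset (Fin n)).Nonempty := ⟨m, mem_univ _⟩
    refine ⟨univ.inf' hne fun i => if g i = g m then 1 else h V (g i) - g m, ?_, ?_⟩
    · rw [Finset.lt_inf'_iff]
      intro i _
      split_ifs with h1
      · norm_num
      · have h2 : g m < g i := lt_of_le_of_ne (hm i) (Ne.symm h1)
        unfold h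
        rw [sub_pos, lt_min_iff]
        exact ⟨h2, hmV⟩
    · intro i hi
      have h1 := Finset.inf'_le (fun i => if g i = g m then 1 else h V (g i) - g m) (mem_univ i)
      simp only [if_neg hi] at h1
      linarith
  obtain ⟨κ, hκ0, hκ1, hκ2⟩ : ∃ κ : ℝ, 0 < κ ∧ κ ≤ c ^ 2 / 32 ∧ κ ≤ δ * c / 4 :=
    ⟨min (c ^ 2 / 32) (δ * c / 4), lt_min (by positivity) (by positivity), min_le_left _ _,
      min_le_right _ _⟩
  obtain ⟨T, hT⟩ : ∃ T, ∀ t, T ≤ t → ∑ i, φ V (G T i) - κ < ∑ i, φ V (G t i) := by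
    have hbdd : BddBelow (Set.range fun t => ∑ i, φ V (G t i)) := by
      refine ⟨0, ?_⟩
      rintro _ ⟨t, rfl⟩
      exact sum_nonneg fun i _ => phi_nonneg hV.le (H.lower' hpos (Nat.zero_le t) i)
    obtain ⟨T, hT⟩ := exists_lt_of_ciInf_lt
      (show ⨅ t, ∑ i, φ V (G t i) < (⨅ t, ∑ i, φ V (G t i)) + κ by linarith)
    refine ⟨T, fun t _ => ?_⟩
    have := ciInf_le hbdd t
    linarith
  obtain ⟨t0, ht0, hclose⟩ := hg (c / 4) (by positivity) T
  classical
  have hex : ∃ t, t0 ≤ t ∧ ∃ i, act t i ∧ ¬ (g i = g m ↔ g (i - 1) = g m) := by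
    obtain ⟨i, hi1, hi2⟩ := hE0
    obtain ⟨t, ht1, ht2⟩ := H.inf i t0
    exact ⟨t, ht1, i, ht2, fun h => hi2 (h.1 hi1)⟩
  obtain ⟨ht1, i, hact, hi⟩ := Nat.find_spec hex
  have hmin : ∀ t, t0 ≤ t → t < Nat.find hex → ∀ i, act t i → (g i = g m ↔ g (i - 1) = g m) := by
    intro t h1 h2 i h3
    by_contra h4
    exact Nat.find_min hex h2 ⟨h1, i, h3, h4⟩
  obtain ⟨I1, I2⟩ := H.invariant (B := fun i => g i = g m) (p := g m + c / 4)
    (q := g m + c - c / 4) ht1 hmin
    (fun i hi => by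
      have := (abs_lt.1 (hclose i)).2
      rw [hi] at this
      linarith)
    (fun i hi => by
      have h1 := (abs_lt.1 (hclose i)).1
      have h2 := hc i hi
      have h3 : h V (g i) ≤ g i := min_le_left _ _
      linarith)
  obtain ⟨t1, ht1'⟩ : ∃ t1, t1 = Nat.find hex := ⟨_, rfl⟩
  rw [← ht1'] at ht1 hact I1 I2
  have hhB : ∀ i, g i = g m → h V (G t1 i) ≤ g m + c / 4 := fun i hi =>
    (min_le_left _ _).trans (I1 i hi)
  have hhN : ∀ i, g i ≠ g m → g m + c - c / 4 ≤ h V (G t1 i) := fun i hi => by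
    refine le_min (I2 i hi) ?_
    have h2 := hc i hi
    have h3 : h V (g i) ≤ V := min_le_right _ _
    linarith
  have hD : c / 2 ≤ |h V (G t1 i) - h V (G t1 (i - 1))| := by
    by_cases hi1 : g i = g m
    · have hi2 : g (i - 1) ≠ g m := fun h => hi ⟨fun _ => h, fun _ => hi1⟩
      have e1 := hhB i hi1
      have e2 := hhN _ hi2
      rw [abs_sub_comm]
      refine le_trans ?_ (le_abs_self _)
      linarith
    · have hi2 : g (i - 1) = g m := by
        by_contra h
        exact hi ⟨fun h' => absurd h' hi1, fun h' => absurd h' h⟩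
      have e1 := hhB _ hi2
      have e2 := hhN _ hi1
      refine le_trans ?_ (le_abs_self _)
      linarith
  obtain ⟨D, hDd⟩ : ∃ D, D = |h V (G t1 i) - h V (G t1 (i - 1))| := ⟨_, rfl⟩
  rw [← hDd] at hD
  have hdrop : κ ≤ s t1 i * (h V (G t1 i) - h V (G t1 (i - 1))) ^ 2 / 8 := by
    rw [← sq_abs, ← hDd]
    rcases H.stop t1 i hact with h1 | h1
    · rw [h1, one_mul]
      refine hκ1.trans ?_
      nlinarith
    · unfold mv at h1
      rw [abs_mul, abs_of_nonneg (H.s0 t1 i), abs_div, ← hDd,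
        abs_of_pos (by norm_num : (0 : ℝ) < 4)] at h1
      refine hκ2.trans ?_
      have h2 : 4 * δ ≤ s t1 i * D := by linarith
      have h3 : 4 * δ * (c / 2) ≤ s t1 i * D * D :=
        mul_le_mul h2 hD (by positivity) (le_trans (by positivity) h2)
      nlinarith
  have h1 := H.phi_step t1
  have h2 : s t1 i * (h V (G t1 i) - h V (G t1 (i - 1))) ^ 2 / 8 ≤
      ∑ i, s t1 i * (h V (G t1 i) - h V (G t1 (i - 1))) ^ 2 / 8 :=
    single_le_sum (f := fun i => s t1 i * (h V (G t1 i) - h V (G t1 (i - 1))) ^ 2 / 8)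
      (fun i _ => div_nonneg (mul_nonneg (H.s0 t1 i) (sq_nonneg _)) (by norm_num)) (mem_univ i)
  have h3 := hT (t1 + 1) (by omega)
  have h4 := H.phi_anti (show T ≤ t1 by omega)
  simp only at h4
  linarith

theorem Gaps.converge (H : Gaps V δ G s act) (hV : 0 < V) (hδ : 0 < δ) (hpos : ∀ i, 0 ≤ G 0 i)
    (hVn : (∑ i, G 0 i) / n ≤ V) {ε : ℝ} (hε : 0 < ε) :
    ∃ T, ∀ t, T ≤ t → ∀ i, |G t i - (∑ i, G 0 i) / n| ≤ ε := by
  obtain ⟨L, hL⟩ : ∃ L, L = ∑ i, G 0 i := ⟨_, rfl⟩
  rw [← hL] at hVn ⊢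
  have hn0 : 0 < n := Nat.pos_of_ne_zero (NeZero.ne n)
  have hn : (0 : ℝ) < n := by exact_mod_cast hn0
  have hnn : ∀ t i, 0 ≤ G t i := fun t => H.lower' hpos (Nat.zero_le t)
  have hsum : ∀ t, ∑ i, G t i = L := fun t => by rw [H.sum_eq, hL]
  obtain ⟨g, -, r, hr, hlim⟩ := (isCompact_Icc (a := (0 : Fin n → ℝ)) (b := fun _ => L)).tendsto_subseq
    (x := G) (fun t => ⟨fun i => hnn t i, fun i => by
      rw [← hsum t]
      exact single_le_sum (f := fun i => G t i) (fun j _ => hnn t j) (mem_univ i)⟩)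
  rw [tendsto_pi_nhds] at hlim
  have hg : ∀ ρ : ℝ, 0 < ρ → ∀ T : ℕ, ∃ t, T ≤ t ∧ ∀ i, |G t i - g i| < ρ := by
    intro ρ hρ T
    have h1 : ∀ i, ∀ᶠ k in Filter.atTop, |G (r k) i - g i| < ρ := by
      intro i
      have := (hlim i).eventually (Metric.ball_mem_nhds (g i) hρ)
      filter_upwards [this] with k hk
      rw [Real.dist_eq] at hk
      exact hk
    have h2 := (Filter.eventually_all.2 h1).and (Filter.eventually_ge_atTop T)
    obtain ⟨k, hk1, hk2⟩ := h2.exists
    exact ⟨r k, hk2.trans (hr.id_le k), hk1⟩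
  have hgsum : ∑ i, g i = L := by
    have h1 : Filter.Tendsto (fun k => ∑ i, G (r k) i) Filter.atTop (nhds (∑ i, g i)) :=
      tendsto_finsetSum _ fun i _ => hlim i
    simp only [hsum] at h1
    exact (tendsto_nhds_unique h1 tendsto_const_nhds)
  obtain ⟨m, -, hm⟩ := Finset.exists_min_image univ g ⟨⟨0, hn0⟩, mem_univ _⟩
  have hm' : ∀ i, g m ≤ g i := fun i => hm i (mem_univ i)
  have hmd : L / n ≤ g m := by
    rcases lt_or_ge (g m) V with h1 | h1
    · have h2 := H.limit hV hδ hpos hg hm' h1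
      have h3 : ∑ i, g i = n * g m := by
        rw [Finset.sum_congr rfl fun i _ => h2 i]
        simp
      rw [div_le_iff₀ hn, ← hgsum, h3, mul_comm]
    · exact hVn.trans h1
  obtain ⟨T, -, hT⟩ := hg (ε / n) (by positivity) 0
  have hlow : ∀ i, L / n - ε / n ≤ G T i := by
    intro i
    have h1 := (abs_lt.1 (hT i)).1
    have h2 := hm' i
    linarith
  refine ⟨T, fun t ht i => ?_⟩
  have hlow' := H.lower' hlow ht
  rw [abs_le]
  have h4 : ε / n ≤ ε := div_le_self hε.le (by exact_mod_cast hn0)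
  constructor
  · linarith [hlow' i]
  · have h1 : ∑ j ∈ univ.erase i, (L / n - ε / n) ≤ ∑ j ∈ univ.erase i, G t j :=
      sum_le_sum fun j _ => hlow' j
    have h2 := Finset.add_sum_erase univ (G t) (mem_univ i)
    rw [hsum] at h2
    rw [sum_const, card_erase_of_mem (mem_univ i), card_univ, Fintype.card_fin, nsmul_eq_mul,
      Nat.cast_sub (by omega)] at h1
    have h3 : ((n : ℝ) - (1 : ℕ)) * (L / n - ε / n) = L - ε - L / n + ε / n := by
      field_simp
      ring
    rw [h3] at h1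
    have h5 : 0 ≤ ε / n := by positivity
    linarith

end

/-! ### The algorithm -/

/-- The algorithm: a sensor moves by a quarter of the difference of the distances of its neighbours
in its two directions, where a missing neighbour counts as one at distance `V`. -/
noncomputable def alg (V : ℝ) (S : Set ℝ) : ℝ :=
  (sInf ({y | y ∈ S ∧ 0 < y} ∪ {V}) - sInf ({y | -y ∈ S ∧ 0 < y} ∪ {V})) / 4

theorem sInf_cap {T : Set ℝ} {V g : ℝ} (h1 : ∀ y ∈ T, g ≤ y) (h3 : g ≤ V → g ∈ T) : sInf (T ∪ {V}) = h V g := by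
  unfold h
  rcases le_or_gt g V with h4 | h4
  · rw [min_eq_left h4]
    refine IsLeast.csInf_eq ⟨Or.inl (h3 h4), ?_⟩
    rintro y (hy | hy)
    · exact h1 y hy
    · rw [hy]; exact h4
  · rw [min_eq_right h4.le]
    refine IsLeast.csInf_eq ⟨Or.inr rfl, ?_⟩
    rintro y (hy | hy)
    · exact h4.le.trans (h1 y hy)
    · exact le_of_eq hy.symm

section

variable {n : ℕ} [NeZero n]

/-- the gap after sensor `i` -/
noncomputable def gap (L : ℝ) (x : Fin n → ℝ) (i : Fin n) : ℝ :=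
  x (i + 1) - x i + (if i.1 + 1 = n then L else 0)

theorem val_succ (hn : 2 ≤ n) (i : Fin n) : (i + 1).1 = if i.1 + 1 = n then 0 else i.1 + 1 := by
  have h1 : (1 : Fin n).1 = 1 := by
    rw [Fin.val_one', Nat.mod_eq_of_lt (by omega)]
  rw [Fin.val_add, h1]
  split_ifs with h
  · rw [h, Nat.mod_self]
  · exact Nat.mod_eq_of_lt (by omega)

theorem order (hn : 2 ≤ n) {L : ℝ} {x : Fin n → ℝ} (hx : ∀ i, 0 < gap L x i) :
    StrictMono x ∧ ∀ i j, x j < x i + L := by
  have h1 : ∀ a b : Fin n, a.1 + 1 = b.1 → x a < x b := by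
    intro a b hab
    have h2 := hx a
    have h3 : a + 1 = b := Fin.ext (by rw [val_succ hn, if_neg (by omega), hab])
    unfold gap at h2
    rw [h3, if_neg (by omega)] at h2
    linarith
  have h2 : ∀ k : ℕ, ∀ a b : Fin n, a.1 + k + 1 = b.1 → x a < x b := by
    intro k
    induction k with
    | zero => intro a b hab; exact h1 a b (by omega)
    | succ k ih =>
      intro a b hab
      have hb : b.1 - 1 < n := by omega
      exact (ih a ⟨b.1 - 1, hb⟩ (by simp; omega)).trans (h1 ⟨b.1 - 1, hb⟩ b (by simp; omega))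
  have h3 : StrictMono x := by
    intro a b hab
    exact h2 (b.1 - a.1 - 1) a b (by have := Fin.lt_def.1 hab; omega)
  refine ⟨h3, fun i j => ?_⟩
  have hl : n - 1 < n := by omega
  have h4 := hx ⟨n - 1, hl⟩
  have h5 : (⟨n - 1, hl⟩ : Fin n) + 1 = ⟨0, by omega⟩ :=
    Fin.ext (by rw [val_succ hn]; simp; omega)
  unfold gap at h4
  rw [h5, if_pos (by simp; omega)] at h4
  have h6 : x j ≤ x ⟨n - 1, hl⟩ := h3.monotone (Fin.le_def.2 (by simp; omega))
  have h7 : x ⟨0, by omega⟩ ≤ x i := h3.monotone (Fin.le_def.2 (by simp))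
  linarith

theorem int_mul {k : ℤ} {L : ℝ} (hL : 0 < L) :
    (1 ≤ k → L ≤ k * L) ∧ (0 ≤ k → 0 ≤ k * L) ∧ (k ≤ 0 → k * L ≤ 0) ∧ (k ≤ -1 → k * L ≤ -L) := by
  refine ⟨fun h => ?_, fun h => ?_, fun h => ?_, fun h => ?_⟩
  · have : (1 : ℝ) ≤ k := by exact_mod_cast h
    nlinarith
  · have : (0 : ℝ) ≤ k := by exact_mod_cast h
    positivity
  · have : (k : ℝ) ≤ 0 := by exact_mod_cast h
    nlinarith
  · have : (k : ℝ) ≤ -1 := by exact_mod_cast h
    nlinarith

theorem near_right (hn : 2 ≤ n) {L : ℝ} (hL : 0 < L) {x : Fin n → ℝ} (hx : ∀ i, 0 < gap L x i)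
    {i j : Fin n} (hj : j ≠ i) (k : ℤ) (hy : 0 < x j - x i + k * L) :
    gap L x i ≤ x j - x i + k * L := by
  obtain ⟨h1, h2⟩ := order hn hx
  obtain ⟨k1, k2, k3, k4⟩ := int_mul (k := k) hL
  have hvs := val_succ hn i
  have hne : j.1 ≠ i.1 := fun h => hj (Fin.ext h)
  unfold gap
  by_cases hi : i.1 + 1 = n
  · rw [if_pos hi] at hvs ⊢
    have h3 : x j < x i := h1 (Fin.lt_def.2 (by omega))
    have h4 : 1 ≤ k := by
      by_contra h5
      have := k3 (by omega)
      linarith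
    have h5 : x (i + 1) ≤ x j := h1.monotone (Fin.le_def.2 (by omega))
    have := k1 h4
    linarith
  · rw [if_neg hi] at hvs ⊢
    rcases lt_trichotomy k 0 with h3 | h3 | h3
    · have h4 := k4 (by omega)
      have h5 := h2 i j
      linarith
    · rw [h3] at hy ⊢
      have h4 : x i < x j := by
        rw [Int.cast_zero, zero_mul] at hy
        linarith
      have h5 := Fin.lt_def.1 (h1.lt_iff_lt.1 h4)
      have h6 : x (i + 1) ≤ x j := h1.monotone (Fin.le_def.2 (by omega))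
      rw [Int.cast_zero, zero_mul]
      linarith
    · have h4 := k1 (by omega)
      have h5 := h2 j (i + 1)
      linarith

theorem near_left (hn : 2 ≤ n) {L : ℝ} (hL : 0 < L) {x : Fin n → ℝ} (hx : ∀ i, 0 < gap L x i)
    {i j : Fin n} (hj : j ≠ i) (k : ℤ) (hy : x j - x i + k * L < 0) :
    gap L x (i - 1) ≤ -(x j - x i + k * L) := by
  obtain ⟨h1, h2⟩ := order hn hx
  obtain ⟨k1, k2, k3, k4⟩ := int_mul (k := k) hL
  have hvs := val_succ hn (i - 1)
  have hne : j.1 ≠ i.1 := fun h => hj (Fin.ext h)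
  unfold gap
  rw [sub_add_cancel] at hvs ⊢
  by_cases hi : (i - 1).1 + 1 = n
  · rw [if_pos hi] at hvs ⊢
    have h3 : x i < x j := h1 (Fin.lt_def.2 (by omega))
    have h4 : k ≤ -1 := by
      by_contra h5
      have := k2 (by omega)
      linarith
    have h5 : x j ≤ x (i - 1) := h1.monotone (Fin.le_def.2 (by omega))
    have := k4 h4
    linarith
  · rw [if_neg hi] at hvs ⊢
    rcases lt_trichotomy k 0 with h3 | h3 | h3
    · have h4 := k4 (by omega)
      have h5 := h2 (i - 1) j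
      linarith
    · rw [h3] at hy ⊢
      have h4 : x j < x i := by
        rw [Int.cast_zero, zero_mul] at hy
        linarith
      have h5 := Fin.lt_def.1 (h1.lt_iff_lt.1 h4)
      have h6 : x j ≤ x (i - 1) := h1.monotone (Fin.le_def.2 (by omega))
      rw [Int.cast_zero, zero_mul]
      linarith
    · have h4 := k1 (by omega)
      have h5 := h2 j i
      linarith

theorem succ_ne (hn : 2 ≤ n) (i : Fin n) : i + 1 ≠ i := by
  intro h
  have h1 := val_succ hn i
  rw [h] at h1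
  split_ifs at h1 <;> omega

theorem cand (L : ℝ) (x : Fin n → ℝ) (i : Fin n) :
    ∃ k : ℤ, gap L x i = x (i + 1) - x i + k * L := by
  unfold gap
  split_ifs with h1
  · exact ⟨1, by simp⟩
  · exact ⟨0, by simp⟩

theorem cand' (L : ℝ) (x : Fin n → ℝ) (i : Fin n) :
    ∃ k : ℤ, -gap L x (i - 1) = x (i - 1) - x i + k * L := by
  unfold gap
  rw [sub_add_cancel]
  split_ifs with h1
  · exact ⟨-1, by push_cast; ring⟩
  · exact ⟨0, by push_cast; ring⟩

theorem alg_eq (hn : 2 ≤ n) {L V : ℝ} (hL : 0 < L) {x : Fin n → ℝ} (hx : ∀ i, 0 < gap L x i)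
    {σ : Fin n → ℝ} {i : Fin n} (hσ : σ i = 1 ∨ σ i = -1) :
    σ i * alg V (snapshot L V σ x i) = (h V (gap L x i) - h V (gap L x (i - 1))) / 4 := by
  have hne1 : i + 1 ≠ i := succ_ne hn i
  have hne2 : i - 1 ≠ i := fun h => by
    have := succ_ne hn (i - 1)
    rw [sub_add_cancel] at this
    exact this h.symm
  have hR : ∀ T : Set ℝ, (∀ y, y ∈ T ↔ |y| ≤ V ∧ (∃ j, j ≠ i ∧ ∃ k : ℤ,
      y = x j - x i + k * L) ∧ 0 < y) → sInf (T ∪ {V}) = h V (gap L x i) := by
    intro T hT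
    refine sInf_cap ?_ ?_
    · intro y hy
      obtain ⟨-, ⟨j, hj, k, hk⟩, h0⟩ := (hT y).1 hy
      rw [hk] at h0 ⊢
      exact near_right hn hL hx hj k h0
    · intro hg
      obtain ⟨k, hk⟩ := cand L x i
      refine (hT _).2 ⟨by rwa [abs_of_pos (hx i)], ⟨i + 1, hne1, k, hk⟩, hx i⟩
  have hLf : ∀ T : Set ℝ, (∀ y, y ∈ T ↔ |y| ≤ V ∧ (∃ j, j ≠ i ∧ ∃ k : ℤ,
      -y = x j - x i + k * L) ∧ 0 < y) → sInf (T ∪ {V}) = h V (gap L x (i - 1)) := by
    intro T hT
    refine sInf_cap ?_ ?_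
    · intro y hy
      obtain ⟨-, ⟨j, hj, k, hk⟩, h0⟩ := (hT y).1 hy
      have h1 := near_left hn hL hx hj k (by rw [← hk]; linarith)
      rw [← hk] at h1
      linarith
    · intro hg
      obtain ⟨k, hk⟩ := cand' L x i
      refine (hT _).2 ⟨by rwa [abs_of_pos (hx _)], ⟨i - 1, hne2, k, hk⟩, hx _⟩
  unfold alg snapshot
  rcases hσ with hs | hs
  · rw [hR {y | y ∈ {y | |y| ≤ V ∧ ∃ j, j ≠ i ∧ ∃ k : ℤ, σ i * y = x j - x i + k * L} ∧ 0 < y},
      hLf {y | -y ∈ {y | |y| ≤ V ∧ ∃ j, j ≠ i ∧ ∃ k : ℤ, σ i * y = x j - x i + k * L} ∧ 0 < y},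
      hs]
    · ring
    · intro y
      simp only [Set.mem_ofPred_eq, hs, one_mul, abs_neg, and_assoc]
    · intro y
      simp only [Set.mem_ofPred_eq, hs, one_mul, and_assoc]
  · rw [hLf {y | y ∈ {y | |y| ≤ V ∧ ∃ j, j ≠ i ∧ ∃ k : ℤ, σ i * y = x j - x i + k * L} ∧ 0 < y},
      hR {y | -y ∈ {y | |y| ≤ V ∧ ∃ j, j ≠ i ∧ ∃ k : ℤ, σ i * y = x j - x i + k * L} ∧ 0 < y},
      hs]
    · ring
    · intro y
      simp only [Set.mem_ofPred_eq, hs, neg_mul, one_mul, neg_neg, abs_neg, and_assoc]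
    · intro y
      simp only [Set.mem_ofPred_eq, hs, neg_mul, one_mul, and_assoc]

theorem sum_gap (L : ℝ) (x : Fin n → ℝ) : ∑ i, gap L x i = L := by
  unfold gap
  rw [sum_add_distrib, sum_sub_distrib]
  have h1 : ∑ i : Fin n, x (i + 1) = ∑ i : Fin n, x i :=
    Equiv.sum_comp (Equiv.addRight (1 : Fin n)) x
  have hn : 0 < n := Nat.pos_of_ne_zero (NeZero.ne n)
  have h2 : ∑ i : Fin n, (if i.1 + 1 = n then L else 0) = L := by
    have hl : n - 1 < n := by omega
    rw [Finset.sum_eq_single (⟨n - 1, hl⟩ : Fin n)]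
    · rw [if_pos (by simp; omega)]
    · intro j _ hj
      rw [if_neg]
      intro h
      exact hj (Fin.ext (by simp; omega))
    · intro h
      exact absurd (mem_univ _) h
  rw [h1, h2]
  ring

theorem cw_eq (hn : 2 ≤ n) {L : ℝ} (hL : 0 < L) {x : Fin n → ℝ} (hx : ∀ i, 0 < gap L x i)
    (i : Fin n) : cw L (x i) (x (i + 1)) = gap L x i := by
  have h1 : gap L x i < L := by
    have h2 : gap L x i + gap L x (i + 1) ≤ L := by
      rw [← Finset.sum_pair (succ_ne hn i).symm]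
      exact (sum_le_sum_of_subset_of_nonneg (subset_univ _) fun j _ _ => (hx j).le).trans
        (le_of_eq (sum_gap L x))
    linarith [hx (i + 1)]
  obtain ⟨k, hk⟩ := cand L x i
  unfold cw
  have h2 : (x (i + 1) - x i) / L = gap L x i / L - k := by
    rw [hk]
    field_simp
    ring
  rw [h2, Int.fract_sub_intCast, Int.fract_eq_self.2 ⟨div_nonneg (hx i).le hL.le, by
    rwa [div_lt_one hL]⟩]
  field_simp

theorem main (hn : 2 ≤ n) {L V δ : ℝ} (hL : 0 < L) (hV : 0 < V) (hδ : 0 < δ)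
    (hVn : L / n ≤ V) {σ : Fin n → ℝ} (hσ : ∀ i, σ i = 1 ∨ σ i = -1) {act : ℕ → Set (Fin n)}
    {x : ℕ → Fin n → ℝ} (hE : IsExec (alg V) L V δ σ act x) (hx0 : ∀ i, 0 < gap L (x 0) i) {ε : ℝ}
    (hε : 0 < ε) : ∃ T, ∀ t, T ≤ t → (∀ i, 0 < gap L (x t) i) ∧
      ∀ i, |gap L (x t) i - L / n| ≤ ε := by
  have step : ∀ t, (∀ i, 0 < gap L (x t) i) → ∀ i, ∃ s : ℝ, 0 ≤ s ∧ s ≤ 1 ∧
      x (t + 1) i = x t i + mv V s (gap L (x t) i) (gap L (x t) (i - 1)) ∧
      (i ∈ act t → s = 1 ∨ δ ≤ |mv V s (gap L (x t) i) (gap L (x t) (i - 1))|) ∧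
      (i ∉ act t → s = 0) := by
    intro t ht i
    by_cases hi : i ∈ act t
    · obtain ⟨s, hs0, hs1, hs2, hs3⟩ := hE.move t i hi
      have e1 := alg_eq (V := V) hn hL ht (hσ i)
      have e2 : mv V s (gap L (x t) i) (gap L (x t) (i - 1)) =
          s * (σ i * alg V (snapshot L V σ (x t) i)) := by
        rw [e1]; rfl
      have e3 : |mv V s (gap L (x t) i) (gap L (x t) (i - 1))| =
          |s * alg V (snapshot L V σ (x t) i)| := by
        rw [e2, abs_mul, abs_mul, abs_mul]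
        have : |σ i| = 1 := by
          rcases hσ i with h | h <;> rw [h] <;> simp
        rw [this, one_mul]
      exact ⟨s, hs0, hs1, by rw [hs2, e2], fun _ => by rw [e3]; exact hs3,
        fun h => absurd hi h⟩
    · refine ⟨0, le_rfl, zero_le_one, ?_, fun h => absurd h hi, fun _ => rfl⟩
      rw [hE.idle t i hi]
      unfold mv
      ring
  have gstep : ∀ t (s : Fin n → ℝ), (∀ i, x (t + 1) i = x t i +
      mv V (s i) (gap L (x t) i) (gap L (x t) (i - 1))) → ∀ i, gap L (x (t + 1)) i =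
      gap L (x t) i - mv V (s i) (gap L (x t) i) (gap L (x t) (i - 1)) +
        mv V (s (i + 1)) (gap L (x t) (i + 1)) (gap L (x t) i) := by
    intro t s hs i
    have h1 := hs i
    have h2 := hs (i + 1)
    rw [add_sub_cancel_right] at h2
    have h3 : gap L (x (t + 1)) i = x (t + 1) (i + 1) - x (t + 1) i +
      (if i.1 + 1 = n then L else 0) := rfl
    have h4 : gap L (x t) i = x t (i + 1) - x t i + (if i.1 + 1 = n then L else 0) := rfl
    rw [h3, h1, h2]
    linarith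
  have pos : ∀ t i, 0 < gap L (x t) i := by
    intro t
    induction t with
    | zero => exact hx0
    | succ t ih =>
      choose s hs0 hs1 hs2 _ _ using step t ih
      obtain ⟨m, -, hm⟩ := Finset.exists_min_image univ (gap L (x t))
        ⟨⟨0, by omega⟩, mem_univ _⟩
      intro i
      rw [gstep t s hs2 i]
      exact (ih m).trans_le (lower_step hs0 hs1 (fun j => hm j (mem_univ j)) i)
  have hall := fun t => step t (pos t)
  choose s hs0 hs1 hs2 hs3 hs4 using hall
  have H : Gaps V δ (fun t => gap L (x t)) s (fun t i => i ∈ act t) :=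
    ⟨hs0, hs1, hs3, hs4, hE.fair, fun t i => gstep t (s t) (hs2 t) i⟩
  obtain ⟨T, hT⟩ := H.converge hV hδ (fun i => (hx0 i).le) (by
    simp only [sum_gap]; exact hVn) hε
  simp only [sum_gap] at hT
  exact ⟨T, fun t ht => ⟨pos t, hT t ht⟩⟩

end

/-- For every visibility range `V` there is one algorithm which works for all `n ≥ 2`, all lengths
`L` of the ring with `L / n ≤ V`, all orientations of the local coordinate systems and all
semi-synchronous schedules: for every `ε > 0` there is a time from which on all clockwise distances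
between consecutive sensors differ from `L / n` by at most `ε`. -/
theorem result (V : ℝ) (hV : 0 < V) :
    ∃ f : Set ℝ → ℝ, ∀ (n : ℕ) (L δ : ℝ) (σ : Fin n → ℝ) (act : ℕ → Set (Fin n))
      (x : ℕ → Fin n → ℝ), 2 ≤ n → 0 < L → L / n ≤ V → 0 < δ → (∀ i, σ i = 1 ∨ σ i = -1) →
      IsExec f L V δ σ act x → StrictMono (x 0) → (∀ i j, x 0 j < x 0 i + L) →
      ∀ ε : ℝ, 0 < ε → ∃ T, ∀ t, T ≤ t → ∀ i j : Fin n, j.1 = (i.1 + 1) % n →
        L / n - ε ≤ cw L (x t i) (x t j) ∧ cw L (x t i) (x t j) ≤ L / n + ε := by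
  refine ⟨alg V, ?_⟩
  intro n L δ σ act x hn hL hVn hδ hσ hE hmono hcirc ε hε
  have : NeZero n := ⟨by omega⟩
  have hx0 : ∀ i, 0 < gap L (x 0) i := by
    intro i
    unfold gap
    have h1 := val_succ hn i
    split_ifs with h
    · linarith [hcirc (i + 1) i]
    · rw [if_neg h] at h1
      have h2 : x 0 i < x 0 (i + 1) := hmono (Fin.lt_def.2 (by omega))
      linarith
  obtain ⟨T, hT⟩ := main hn hL hV hδ hVn hσ hE hx0 hε
  refine ⟨T, fun t ht i j hij => ?_⟩
  obtain ⟨h1, h2⟩ := hT t ht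
  have hj : j = i + 1 := by
    apply Fin.ext
    rw [hij, val_succ hn]
    split_ifs with h
    · rw [h, Nat.mod_self]
    · exact Nat.mod_eq_of_lt (by omega)
  rw [hj, cw_eq hn hL h1 i]
  have h3 := abs_le.1 (h2 i)
  constructor <;> linarith

end Pool.Agent.Results.MP_5c423c_lc.RingCovering
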